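import Pool.Agent.Zk97.CB.StmC

set_option autoImplicit false
set_option linter.all false

open Polynomial
open Pool.Agent.R410.LW (FG frac_of_closure)
open Pool.Agent.R410.NG (Asy asy_hom)
open Pool.Agent.R410.BS (good_le)

namespace Pool.Agent.Zk64.CB

/-- abstract lemma -/
theorem loc_prime {R L : Type} [CommRing R] [CommRing L] [Algebra R L] [IsNoetherianRing R]
    (T : Submonoid R) [IsLocalization T L] (hinj : Function.Injective (algebraMap R L))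
    (J : Ideal R) :
    ∃ t ∈ T, ∀ Q : Ideal R, Q.IsPrime → J ≤ Q → t ∉ Q →
      ∃ 𝔭 ∈ (J.map (algebraMap R L)).minimalPrimes, 𝔭.comap (algebraMap R L) ≤ Q := by
  classical
  have hL : IsNoetherianRing L := IsLocalization.isNoetherianRing T L inferInstance
  set I := J.map (algebraMap R L) with hI
  have hfin := Ideal.finite_minimalPrimes_of_isNoetherianRing L I
  set K0 : Ideal R := ∏ 𝔭 ∈ hfin.toFinset, 𝔭.comap (algebraMap R L) with hK0
  have h1 : K0.map (algebraMap R L) ≤ I.radical := by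
    rw [← Ideal.sInf_minimalPrimes, le_sInf_iff]
    intro 𝔭 h𝔭
    rw [Ideal.map_le_iff_le_comap]
    exact Ideal.prod_le_inf.trans (Finset.inf_le (hfin.mem_toFinset.2 h𝔭))
  obtain ⟨n, hn⟩ := Ideal.exists_radical_pow_le_of_fg I (IsNoetherian.noetherian _)
  have h2 : (K0 ^ n).map (algebraMap R L) ≤ I := by
    rw [Ideal.map_pow]
    exact (Ideal.pow_right_mono h1 n).trans hn
  obtain ⟨G, hG⟩ := (IsNoetherian.noetherian (K0 ^ n) : (K0 ^ n).FG)
  have h3 : ∀ g ∈ G, ∃ t ∈ T, t * g ∈ J := by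
    intro g hg
    have h4 : algebraMap R L g ∈ J.map (algebraMap R L) :=
      h2 (Ideal.mem_map_of_mem _ (hG ▸ Submodule.subset_span hg))
    rw [IsLocalization.mem_map_algebraMap_iff T L] at h4
    obtain ⟨⟨a, t⟩, h⟩ := h4
    refine ⟨t, t.2, ?_⟩
    have h5 : g * t = a := hinj (by simpa using h)
    rw [mul_comm, h5]
    exact a.2
  choose! t ht htg using h3
  refine ⟨∏ g ∈ G, t g, T.prod_mem ht, ?_⟩
  intro Q hQ hJQ htQ
  have h4 : K0 ^ n ≤ Q := by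
    rw [← hG]
    refine Submodule.span_le.2 ?_
    intro g hg
    have h5 := hJQ (htg g hg)
    refine (hQ.mem_or_mem h5).resolve_left ?_
    intro h6
    exact htQ (Q.mem_of_dvd (Finset.dvd_prod_of_mem t hg) h6)
  have h5 : K0 ≤ Q := Ideal.IsPrime.le_of_pow_le h4
  rw [hK0, hQ.prod_le] at h5
  obtain ⟨𝔭, h𝔭, h6⟩ := h5
  exact ⟨𝔭, hfin.mem_toFinset.1 h𝔭, h6⟩

section
variable (A M : Type) [CommRing A] [Field M] [Algebra A M]

/-- the map between the polynomial rings -/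
noncomputable def io : A[X][X] →+* M[X][X] := mapRingHom (mapRingHom (algebraMap A M))

/-- the constants -/
noncomputable def cc : A →+* A[X][X] := (C : A[X] →+* A[X][X]).comp C

theorem io_cc (a : A) : io A M (cc A a) = C (C (algebraMap A M a)) := by
  simp [io, cc]

theorem io_loc [IsFractionRing A M] :
    letI := (io A M).toAlgebra
    IsLocalization ((nonZeroDivisors A).map (cc A)) M[X][X] := by
  letI i1 : Algebra A[X] M[X] := (mapRingHom (algebraMap A M)).toAlgebra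
  have h1 : IsLocalization ((nonZeroDivisors A).map (C : A →+* A[X])) M[X] :=
    Polynomial.isLocalization (nonZeroDivisors A) M
  letI i2 : Algebra A[X][X] M[X][X] := (mapRingHom (algebraMap A[X] M[X])).toAlgebra
  have h2 : IsLocalization (((nonZeroDivisors A).map (C : A →+* A[X])).map (C : A[X] →+* A[X][X]))
      M[X][X] := Polynomial.isLocalization _ M[X]
  have h3 : ((nonZeroDivisors A).map (C : A →+* A[X])).map (C : A[X] →+* A[X][X]) =
      (nonZeroDivisors A).map (cc A) := by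
    ext z
    constructor
    · rintro ⟨_, ⟨a, ha, rfl⟩, rfl⟩
      exact ⟨a, ha, rfl⟩
    · rintro ⟨a, ha, rfl⟩
      exact ⟨_, ⟨a, ha, rfl⟩, rfl⟩
  rw [h3] at h2
  exact h2

theorem io_inj [IsDomain A] [IsFractionRing A M] : Function.Injective (io A M) := by
  unfold io
  rw [coe_mapRingHom]
  exact map_injective _ (by rw [coe_mapRingHom]; exact map_injective _ (IsFractionRing.injective A M))

/-- the components catch all the points with `s₀ ≠ 0` -/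
theorem comps [IsDomain A] [IsNoetherianRing A] [IsFractionRing A M] (J : Ideal A[X][X]) :
    ∃ s₀ : A, s₀ ≠ 0 ∧ ∀ Q : Ideal A[X][X], Q.IsPrime → J ≤ Q → cc A s₀ ∉ Q →
      ∃ 𝔭 ∈ (J.map (io A M)).minimalPrimes, 𝔭.comap (io A M) ≤ Q := by
  letI := (io A M).toAlgebra
  have hloc := io_loc A M
  obtain ⟨t, ht, h⟩ := loc_prime (R := A[X][X]) (L := M[X][X])
    ((nonZeroDivisors A).map (cc A)) (io_inj A M) J
  obtain ⟨s₀, hs₀, rfl⟩ := ht
  exact ⟨s₀, nonZeroDivisors.ne_zero hs₀, h⟩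

end


/-! ### Part 2: one component -/

section gen
variable {R L : Type} [CommRing R] [CommRing L] (f : R →+* L) (𝔭 : Ideal L) [𝔭.IsPrime]

/-- the map to the function field -/
noncomputable def toK : R ⧸ 𝔭.comap f →+* FractionRing (L ⧸ 𝔭) :=
  (algebraMap (L ⧸ 𝔭) (FractionRing (L ⧸ 𝔭))).comp (Ideal.quotientMap 𝔭 f le_rfl)

theorem toK_mk (z : R) : toK f 𝔭 (Ideal.Quotient.mk (𝔭.comap f) z) =
    algebraMap (L ⧸ 𝔭) (FractionRing (L ⧸ 𝔭)) (Ideal.Quotient.mk 𝔭 (f z)) := rfl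

theorem toK_inj : Function.Injective (toK f 𝔭) :=
  (IsFractionRing.injective (L ⧸ 𝔭) (FractionRing (L ⧸ 𝔭))).comp
    Ideal.quotientMap_injective

theorem closure_range' [Algebra R L] (T : Submonoid R) [IsLocalization T L] :
    Subfield.closure (Set.range (toK (algebraMap R L) 𝔭)) = ⊤ := by
  set K := FractionRing (L ⧸ 𝔭)
  set c := Subfield.closure (Set.range (toK (algebraMap R L) 𝔭)) with hc
  let π : L →+* K := (algebraMap (L ⧸ 𝔭) K).comp (Ideal.Quotient.mk 𝔭)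
  have hA : ∀ z : R, π (algebraMap R L z) ∈ c := fun z =>
    Subfield.subset_closure ⟨Ideal.Quotient.mk _ z, rfl⟩
  have h2 : ∀ p : L, π p ∈ c := by
    intro p
    obtain ⟨⟨a, t⟩, h⟩ := IsLocalization.surj T p
    have h3 : IsUnit (π (algebraMap R L t)) := (IsLocalization.map_units L t).map π
    have h4 : π p = π (algebraMap R L a) / π (algebraMap R L t) := by
      rw [eq_div_iff h3.ne_zero, ← map_mul, h]
    rw [h4]
    exact c.div_mem (hA _) (hA _)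
  rw [eq_top_iff]
  intro z _
  obtain ⟨a, b, hb, rfl⟩ := IsFractionRing.div_surjective (A := L ⧸ 𝔭) z
  obtain ⟨a, rfl⟩ := Ideal.Quotient.mk_surjective a
  obtain ⟨b, rfl⟩ := Ideal.Quotient.mk_surjective b
  exact c.div_mem (h2 a) (h2 b)

theorem ft_surj {R Q : Type} [CommRing R] [CommRing Q] [Algebra.FiniteType ℤ R] (g : R →+* Q)
    (hg : Function.Surjective g) : Algebra.FiniteType ℤ Q :=
  Algebra.FiniteType.of_surjective g.toIntAlgHom hg

theorem fg_of {Q K : Type} [CommRing Q] [Algebra.FiniteType ℤ Q] [Field K] (g : Q →+* K)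
    (h : Subfield.closure (Set.range g) = ⊤) : FG K := by
  obtain ⟨G, hG⟩ := (inferInstance : Algebra.FiniteType ℤ Q).out
  classical
  refine ⟨G.image g, ?_⟩
  rw [eq_top_iff, ← h, Subfield.closure_le]
  rintro _ ⟨b, rfl⟩
  have hb : b ∈ Algebra.adjoin ℤ (G : Set Q) := by rw [hG]; trivial
  induction hb using Algebra.adjoin_induction with
  | mem x hx => exact Subfield.subset_closure (by simpa using ⟨x, hx, rfl⟩)
  | algebraMap n =>
    rw [eq_intCast, map_intCast]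
    exact intCast_mem _ n
  | add x y _ _ h1 h2 =>
    rw [map_add]
    exact add_mem h1 h2
  | mul x y _ _ h1 h2 =>
    rw [map_mul]
    exact mul_mem h1 h2

theorem fg_K [Algebra.FiniteType ℤ R] (h : Subfield.closure (Set.range (toK f 𝔭)) = ⊤) :
    FG (FractionRing (L ⧸ 𝔭)) := by
  have hft := ft_surj (Ideal.Quotient.mk (𝔭.comap f)) Ideal.Quotient.mk_surjective
  exact fg_of (toK f 𝔭) h

theorem trdeg_K {M : Type} [Field M] [Algebra M L] [CharZero M] {d e : ℕ}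
    (hd : Algebra.trdeg ℚ M = d) (he : Algebra.trdeg M (L ⧸ 𝔭) = e) :
    ∃ _ : CharZero (FractionRing (L ⧸ 𝔭)),
      Algebra.trdeg ℚ (FractionRing (L ⧸ 𝔭)) = ((d + e : ℕ) : Cardinal) := by
  have hinjM : Function.Injective (algebraMap M (FractionRing (L ⧸ 𝔭))) :=
    (algebraMap M (FractionRing (L ⧸ 𝔭))).injective
  have hcK : CharZero (FractionRing (L ⧸ 𝔭)) := charZero_of_injective_algebraMap hinjM
  refine ⟨hcK, ?_⟩
  have hinjD : Function.Injective (algebraMap M (L ⧸ 𝔭)) := (algebraMap M _).injective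
  have i1 : FaithfulSMul M (L ⧸ 𝔭) := (faithfulSMul_iff_algebraMap_injective _ _).2 hinjD
  have i3 : Algebra.IsAlgebraic (L ⧸ 𝔭) (FractionRing (L ⧸ 𝔭)) :=
    IsLocalization.isAlgebraic (R := L ⧸ 𝔭) (S := FractionRing (L ⧸ 𝔭)) (nonZeroDivisors _)
  have h1 := trdeg_add_eq M (L ⧸ 𝔭) (A := FractionRing (L ⧸ 𝔭))
  rw [trdeg_eq_zero (R := L ⧸ 𝔭) (A := FractionRing (L ⧸ 𝔭)), add_zero, he] at h1
  have h2 := trdeg_add_eq ℚ M (A := FractionRing (L ⧸ 𝔭))
  rw [hd, ← h1] at h2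
  rw [← h2]
  push_cast
  rfl

end gen

/-! ### Part 3: the counts -/

section cnt
variable {R L : Type} [CommRing R] [CommRing L]

/-- homomorphisms from the quotient -/
noncomputable def qe (P : Ideal R) (F : Type) [Field F] (q : (R →+* F) → Prop) :
    {φ : R ⧸ P →+* F // q (φ.comp (Ideal.Quotient.mk P))} ≃
      {Φ : R →+* F // P ≤ RingHom.ker Φ ∧ q Φ} where
  toFun φ := ⟨φ.1.comp (Ideal.Quotient.mk P), fun a ha => by
    rw [RingHom.mem_ker, RingHom.comp_apply, Ideal.Quotient.eq_zero_iff_mem.2 ha, map_zero], φ.2⟩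
  invFun Φ := ⟨Ideal.Quotient.lift P Φ.1 (fun a ha => Φ.2.1 ha), by
    have h : (Ideal.Quotient.lift P Φ.1 (fun a ha => Φ.2.1 ha)).comp (Ideal.Quotient.mk P) = Φ.1 :=
      RingHom.ext fun a => rfl
    rw [h]
    exact Φ.2.2⟩
  left_inv φ := by
    apply Subtype.ext
    apply Ideal.Quotient.ringHom_ext
    exact RingHom.ext fun a => rfl
  right_inv Φ := by
    apply Subtype.ext
    exact RingHom.ext fun a => rfl

theorem sq_le (F : Type) [Field F] [Finite F] : √(Nat.card F : ℝ) ≤ (Nat.card F : ℝ) := by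
  have h1 : (1 : ℝ) ≤ (Nat.card F : ℝ) := by exact_mod_cast Nat.card_pos
  rw [Real.sqrt_le_left (by linarith)]
  nlinarith

variable [Algebra.FiniteType ℤ R] (f : R →+* L) (𝔭 : Ideal L) [𝔭.IsPrime]
  [CharZero (FractionRing (L ⧸ 𝔭))]

/-- few points of a component where a function vanishes -/
theorem few {e : ℕ} (he : Algebra.trdeg ℚ (FractionRing (L ⧸ 𝔭)) = (e : ℕ)) {u : R}
    (hu : u ∉ 𝔭.comap f) : ∃ (C : ℝ) (N : ℕ), 0 ≤ C ∧ N ≠ 0 ∧ ∀ (F : Type) [Field F] [Finite F],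
      ((N : ℕ) : F) ≠ 0 →
        (Nat.card {Φ : R →+* F // 𝔭.comap f ≤ RingHom.ker Φ ∧ Φ u = 0} : ℝ) * √(Nat.card F : ℝ) ≤
          C * (Nat.card F : ℝ) ^ e := by
  letI : Algebra (R ⧸ 𝔭.comap f) (FractionRing (L ⧸ 𝔭)) := (toK f 𝔭).toAlgebra
  have hft := ft_surj (Ideal.Quotient.mk (𝔭.comap f)) Ideal.Quotient.mk_surjective
  have hu' : Ideal.Quotient.mk (𝔭.comap f) u ≠ 0 := fun h => hu (Ideal.Quotient.eq_zero_iff_mem.1 h)
  obtain ⟨C, N, hC, hN, h⟩ := good_le (R := R ⧸ 𝔭.comap f) (K := FractionRing (L ⧸ 𝔭))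
    (toK_inj f 𝔭) he.le hu'
  refine ⟨C, N, hC, hN, fun F _ _ hF => ?_⟩
  have h1 := (h F hF).2
  have h2 : Nat.card {φ : R ⧸ 𝔭.comap f →+* F // φ (Ideal.Quotient.mk (𝔭.comap f) u) = 0} =
      Nat.card {Φ : R →+* F // 𝔭.comap f ≤ RingHom.ker Φ ∧ Φ u = 0} :=
    Nat.card_congr (qe (𝔭.comap f) F fun Φ => Φ u = 0)
  rw [h2] at h1
  exact (mul_le_mul_of_nonneg_left (sq_le F) (Nat.cast_nonneg _)).trans h1

/-- the points of a component -/
theorem asyY {e : ℕ} (he : Algebra.trdeg ℚ (FractionRing (L ⧸ 𝔭)) = (e : ℕ))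
    (hcl : Subfield.closure (Set.range (toK f 𝔭)) = ⊤) {u : R}
    (hu : u ∉ 𝔭.comap f) :
    Asy (fun F _ _ => (Nat.card {Φ : R →+* F // 𝔭.comap f ≤ RingHom.ker Φ ∧ Φ u ≠ 0} : ℝ)) e 1 := by
  letI : Algebra (R ⧸ 𝔭.comap f) (FractionRing (L ⧸ 𝔭)) := (toK f 𝔭).toAlgebra
  have hft := ft_surj (Ideal.Quotient.mk (𝔭.comap f)) Ideal.Quotient.mk_surjective
  have hfr : IsFractionRing (R ⧸ 𝔭.comap f) (FractionRing (L ⧸ 𝔭)) :=
    frac_of_closure (toK_inj f 𝔭) hcl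
  have h0 := asy_hom (fg_K f 𝔭 hcl) he (R ⧸ 𝔭.comap f)
  refine h0.near ?_
  obtain ⟨C, N, hC, hN, h⟩ := few f 𝔭 he hu
  refine ⟨C, N, hC, hN, fun F _ _ hF => ?_⟩
  have h1 := h F hF
  have hfin : Finite (R ⧸ 𝔭.comap f →+* F) := Pool.Agent.TH958.An.finite_hom F
  have h2 : Nat.card (R ⧸ 𝔭.comap f →+* F) =
      Nat.card {Φ : R →+* F // 𝔭.comap f ≤ RingHom.ker Φ ∧ Φ u = 0} +
      Nat.card {Φ : R →+* F // 𝔭.comap f ≤ RingHom.ker Φ ∧ Φ u ≠ 0} := by
    rw [← Nat.card_congr (qe (𝔭.comap f) F fun Φ => Φ u = 0),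
      ← Nat.card_congr (qe (𝔭.comap f) F fun Φ => Φ u ≠ 0), ← Nat.card_sum]
    classical
    exact Nat.card_congr (Equiv.sumCompl
      (fun φ : R ⧸ 𝔭.comap f →+* F => (φ.comp (Ideal.Quotient.mk (𝔭.comap f))) u = 0)).symm
  rw [h2]
  push_cast
  rw [show ∀ a b : ℝ, b - (a + b) = -a from fun a b => by ring, abs_neg, abs_of_nonneg
    (Nat.cast_nonneg _)]
  exact h1

end cnt

section union

theorem union_le {ι X : Type} [DecidableEq ι] [DecidableEq X] (Y : ι → Finset X) (s : Finset ι) :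
    |(((s.biUnion Y).card : ℝ)) - ∑ i ∈ s, ((Y i).card : ℝ)| ≤
      ∑ z ∈ s.offDiag, (((Y z.1 ∩ Y z.2).card : ℕ) : ℝ) := by
  induction s using Finset.induction_on with
  | empty => simp
  | insert i s hi ih =>
    rw [Finset.biUnion_insert, Finset.sum_insert hi]
    have h1 : (((Y i ∪ s.biUnion Y).card : ℕ) : ℝ) + ((Y i ∩ s.biUnion Y).card : ℝ) =
        (Y i).card + (s.biUnion Y).card := by exact_mod_cast Finset.card_union_add_card_inter _ _
    have h2 : ((Y i ∩ s.biUnion Y).card : ℝ) ≤ ∑ j ∈ s, ((Y i ∩ Y j).card : ℝ) := by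
      have h3 : Y i ∩ s.biUnion Y = s.biUnion fun j => Y i ∩ Y j := by
        rw [Finset.inter_comm, Finset.biUnion_inter]
        exact Finset.biUnion_congr rfl fun j _ => Finset.inter_comm _ _
      rw [h3]
      exact_mod_cast Finset.card_biUnion_le
    have h4 : ∑ z ∈ s.offDiag, (((Y z.1 ∩ Y z.2).card : ℕ) : ℝ) + ∑ j ∈ s, ((Y i ∩ Y j).card : ℝ) ≤
        ∑ z ∈ (insert i s).offDiag, (((Y z.1 ∩ Y z.2).card : ℕ) : ℝ) := by
      rw [show ∑ j ∈ s, ((Y i ∩ Y j).card : ℝ) =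
        ∑ z ∈ s.image (fun j => (i, j)), (((Y z.1 ∩ Y z.2).card : ℕ) : ℝ) by
          rw [Finset.sum_image (fun a _ b _ h => congrArg Prod.snd h)], ← Finset.sum_union]
      · refine Finset.sum_le_sum_of_subset_of_nonneg ?_ fun _ _ _ => Nat.cast_nonneg _
        intro z hz
        rw [Finset.mem_union, Finset.mem_offDiag, Finset.mem_image] at hz
        rw [Finset.mem_offDiag, Finset.mem_insert, Finset.mem_insert]
        rcases hz with hz | ⟨j, hj, rfl⟩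
        · exact ⟨Or.inr hz.1, Or.inr hz.2.1, hz.2.2⟩
        · exact ⟨Or.inl rfl, Or.inr hj, fun h => hi (by rw [show i = j from h]; exact hj)⟩
      · rw [Finset.disjoint_left]
        intro z hz hz'
        rw [Finset.mem_offDiag] at hz
        rw [Finset.mem_image] at hz'
        obtain ⟨j, hj, rfl⟩ := hz'
        exact hi hz.1
    have h5 : (0 : ℝ) ≤ ((Y i ∩ s.biUnion Y).card : ℝ) := Nat.cast_nonneg _
    rw [abs_le] at ih ⊢
    constructor <;> linarith [ih.1, ih.2]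

end union


/-! ### Part 4: assembly -/

section asm

theorem main_gen {R L : Type} [CommRing R] [CommRing L] [Algebra.FiniteType ℤ R] (f : R →+* L)
    (I : Ideal L) (hfin : I.minimalPrimes.Finite) (S : Finset R) (u : R) (E : ℕ)
    (hcover : ∀ Q : Ideal R, Q.IsPrime → (∀ p ∈ S, p ∈ Q) → u ∉ Q →
      ∃ 𝔭 ∈ I.minimalPrimes, 𝔭.comap f ≤ Q)
    (hS : ∀ p ∈ S, f p ∈ I) (hu : ∀ 𝔭 ∈ I.minimalPrimes, u ∉ 𝔭.comap f)
    (hE : ∀ (𝔭 : Ideal L) [𝔭.IsPrime], 𝔭 ∈ I.minimalPrimes →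
      ∃ _ : CharZero (FractionRing (L ⧸ 𝔭)),
        Algebra.trdeg ℚ (FractionRing (L ⧸ 𝔭)) = ((E : ℕ) : Cardinal))
    (hcl : ∀ (𝔭 : Ideal L) [𝔭.IsPrime], Subfield.closure (Set.range (toK f 𝔭)) = ⊤)
    (hne : ∀ 𝔭 ∈ I.minimalPrimes, ∀ 𝔮 ∈ I.minimalPrimes, 𝔭 ≠ 𝔮 →
      ¬ (𝔮.comap f ≤ 𝔭.comap f)) :
    Asy (fun F _ _ => (Nat.card {Φ : R →+* F // (∀ p ∈ S, Φ p = 0) ∧ Φ u ≠ 0} : ℝ)) E
      (I.minimalPrimes.ncard : ℝ) := by
  classical
  have hsum := Asy.sum (ι := Ideal L) hfin.toFinset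
    (fun 𝔭 F _ _ => (Nat.card {Φ : R →+* F // 𝔭.comap f ≤ RingHom.ker Φ ∧ Φ u ≠ 0} : ℝ))
    (e := E) (fun _ => 1) (fun 𝔭 h𝔭 => by
      rw [Set.Finite.mem_toFinset] at h𝔭
      haveI := h𝔭.1.1
      obtain ⟨hc, he⟩ := hE 𝔭 h𝔭
      exact asyY f 𝔭 he (hcl 𝔭) (hu 𝔭 h𝔭))
  rw [Finset.sum_const, nsmul_eq_mul, mul_one, ← Set.ncard_eq_toFinset_card _ hfin] at hsum
  refine hsum.near ?_
  have hpair : ∀ z ∈ hfin.toFinset.offDiag, ∃ (w : R) (C : ℝ) (N : ℕ), w ∈ z.2.comap f ∧ 0 ≤ C ∧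
      N ≠ 0 ∧ ∀ (F : Type) [Field F] [Finite F], ((N : ℕ) : F) ≠ 0 →
        (Nat.card {Φ : R →+* F // z.1.comap f ≤ RingHom.ker Φ ∧ Φ w = 0} : ℝ) *
          √(Nat.card F : ℝ) ≤ C * (Nat.card F : ℝ) ^ E := by
    rintro ⟨𝔭, 𝔮⟩ hz
    rw [Finset.mem_offDiag, Set.Finite.mem_toFinset, Set.Finite.mem_toFinset] at hz
    obtain ⟨h𝔭, h𝔮, hpq⟩ := hz
    dsimp only at h𝔭 h𝔮 hpq ⊢
    obtain ⟨w, hw, hw'⟩ := SetLike.not_le_iff_exists.1 (hne 𝔭 h𝔭 𝔮 h𝔮 hpq)
    haveI := h𝔭.1.1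
    obtain ⟨hc, he⟩ := hE 𝔭 h𝔭
    obtain ⟨C, N, hC, hN, h⟩ := few f 𝔭 he hw'
    exact ⟨w, C, N, hw, hC, hN, h⟩
  choose! w C N hw hC hN hb using hpair
  refine ⟨∑ z ∈ hfin.toFinset.offDiag, C z, ∏ z ∈ hfin.toFinset.offDiag, N z,
    Finset.sum_nonneg hC, Finset.prod_ne_zero_iff.2 hN, ?_⟩
  intro F _ _ hF
  rw [Nat.cast_prod, Finset.prod_ne_zero_iff] at hF
  have hfinF : Finite (R →+* F) := Pool.Agent.TH958.An.finite_hom F
  letI : Fintype (R →+* F) := Fintype.ofFinite _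
  set Y : Ideal L → Finset (R →+* F) := fun 𝔭 =>
    Finset.univ.filter fun Φ => 𝔭.comap f ≤ RingHom.ker Φ ∧ Φ u ≠ 0 with hY
  have hcY : ∀ 𝔭, Nat.card {Φ : R →+* F // 𝔭.comap f ≤ RingHom.ker Φ ∧ Φ u ≠ 0} = (Y 𝔭).card := by
    intro 𝔭
    rw [Nat.card_eq_fintype_card, Fintype.card_subtype]
  have hX : Nat.card {Φ : R →+* F // (∀ p ∈ S, Φ p = 0) ∧ Φ u ≠ 0} =
      (hfin.toFinset.biUnion Y).card := by
    rw [Nat.card_eq_fintype_card, Fintype.card_subtype]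
    congr 1
    ext Φ
    simp only [Finset.mem_filter, Finset.mem_univ, true_and, Finset.mem_biUnion,
      Set.Finite.mem_toFinset, hY]
    constructor
    · rintro ⟨h1, h2⟩
      obtain ⟨𝔭, h𝔭, h3⟩ := hcover (RingHom.ker Φ) (RingHom.ker_isPrime Φ) h1 h2
      exact ⟨𝔭, h𝔭, h3, h2⟩
    · rintro ⟨𝔭, h𝔭, h3, h2⟩
      exact ⟨fun p hp => h3 (h𝔭.1.2 (hS p hp)), h2⟩
  have hsq : 0 ≤ √(Nat.card F : ℝ) := Real.sqrt_nonneg _
  have h1 := union_le Y hfin.toFinset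
  simp only [hcY]
  rw [hX]
  refine (mul_le_mul_of_nonneg_right h1 hsq).trans ?_
  rw [Finset.sum_mul, Finset.sum_mul]
  refine Finset.sum_le_sum fun z hz => ?_
  refine le_trans (mul_le_mul_of_nonneg_right ?_ hsq) (hb z hz F (hF z hz))
  rw [Nat.card_eq_fintype_card, Fintype.card_subtype]
  norm_cast
  refine Finset.card_le_card fun Φ hΦ => ?_
  simp only [Finset.mem_inter, Finset.mem_filter, Finset.mem_univ, true_and, hY] at hΦ ⊢
  exact ⟨hΦ.1.1, hΦ.2.1 (hw z hz)⟩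

theorem ft_any {R : Type} [CommRing R] (i : Algebra ℤ R) (h : @Algebra.FiniteType ℤ R _ _ i) :
    Algebra.FiniteType ℤ R := by
  convert h

theorem ft_poly (B Q : Type) [CommRing B] [Algebra.FiniteType ℤ B] [CommRing Q] (e : B[X] →+* Q)
    (he : Function.Surjective e) : Algebra.FiniteType ℤ Q := by
  have h : Algebra.FiniteType ℤ B[X] := Algebra.FiniteType.trans (S := B) ‹_› inferInstance
  exact @ft_surj B[X] Q _ _ (ft_any _ h) e he

end asm

section fin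
open Pool.Agent.Zk97.CB (StC)

theorem t_C : StC := by
  intro M _ _ hM d hd A _ _ _ _ _ e S I hI he
  have hnA : IsNoetherianRing A := Algebra.FiniteType.isNoetherianRing ℤ A
  have hft1 := ft_poly A A[X] (RingHom.id _) Function.surjective_id
  have hft2 := ft_poly A[X] A[X][X] (RingHom.id _) Function.surjective_id
  have hI' : I = (Ideal.span (S : Set A[X][X])).map (io A M) := by
    rw [hI, Ideal.map_span]
    rfl
  obtain ⟨s₀, hs₀, hcov⟩ := comps A M (Ideal.span (S : Set A[X][X]))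
  rw [← hI'] at hcov
  refine ⟨s₀, hs₀, fun s hs hds => ?_⟩
  letI := (io A M).toAlgebra
  have hloc := io_loc A M
  refine main_gen (io A M) I (Ideal.finite_minimalPrimes_of_isNoetherianRing _ I) S (C (C s)) (d + e)
    ?_ ?_ ?_ ?_ ?_ ?_
  · intro Q hQ hSQ hu
    refine hcov Q hQ (Ideal.span_le.2 hSQ) fun h => hu ?_
    obtain ⟨t, rfl⟩ := hds
    have h2 : cc A (s₀ * t) ∈ Q := by
      rw [map_mul]
      exact Q.mul_mem_right _ h
    exact h2
  · intro p hp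
    rw [hI']
    exact Ideal.mem_map_of_mem _ (Ideal.subset_span hp)
  · intro 𝔭 h𝔭 h
    have h1 : io A M (cc A s) ∈ 𝔭 := h
    rw [io_cc] at h1
    refine h𝔭.1.1.ne_top (Ideal.eq_top_of_isUnit_mem _ h1 ?_)
    refine IsUnit.map C (IsUnit.map C (IsUnit.mk0 _ ?_))
    exact fun h => hs ((map_eq_zero_iff _ (IsFractionRing.injective A M)).1 h)
  · intro 𝔭 h1 h𝔭
    exact trdeg_K 𝔭 hd (he 𝔭 h𝔭)
  · intro 𝔭 h1
    exact closure_range' 𝔭 ((nonZeroDivisors A).map (cc A))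
  · intro 𝔭 h𝔭 𝔮 h𝔮 hpq hle
    have h1 : 𝔮 ≤ 𝔭 := by
      have h2 := IsLocalization.map_comap ((nonZeroDivisors A).map (cc A)) M[X][X] 𝔮
      have h3 := IsLocalization.map_comap ((nonZeroDivisors A).map (cc A)) M[X][X] 𝔭
      rw [← h2, ← h3]
      exact Ideal.map_mono hle
    exact hpq (le_antisymm (h𝔭.2 h𝔮.1 h1) h1)

end fin

end Pool.Agent.Zk64.CB
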